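import Pool.Agent.R163.FV.Bulk

/-!
MP_1cb47b_co, partial answer to Q1: all pairs `(f₀, f₂)` outside a strip of width `101 f₀^(3/4)`
along the simplicial boundary `f₂ = 2 f₀ - 2` are decided.

The number of edges of an arrangement is the number of incident pairs (vertex, line), and the number
of 2-faces is given by Euler's relation `f₀ - f₁ + f₂ = 1`.
-/

set_option autoImplicit false
open scoped LinearAlgebra.Projectivization

namespace Pool.Agent.Results.MP_1cb47b_co.BulkFVectors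

/-- some arrangement of at least three lines of the real projective plane, not all through one
point, has `f₀` vertices and `f₂` faces -/
def IsFVector (f₀ f₂ : ℕ) : Prop :=
  ∃ A : Finset (ℙ ℝ (Fin 3 → ℝ)), 3 ≤ A.card ∧
    (¬ ∃ p : ℙ ℝ (Fin 3 → ℝ), ∀ L ∈ A, ∑ i, p.rep i * L.rep i = 0) ∧
    ({p : ℙ ℝ (Fin 3 → ℝ) |
      2 ≤ (A.filter (fun L => ∑ i, p.rep i * L.rep i = 0)).card}).ncard = f₀ ∧
    ({s : ℙ ℝ (Fin 3 → ℝ) × ℙ ℝ (Fin 3 → ℝ) |
      2 ≤ (A.filter (fun L => ∑ i, s.1.rep i * L.rep i = 0)).card ∧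
        s.2 ∈ A ∧ ∑ i, s.1.rep i * s.2.rep i = 0}).ncard + 1 = f₀ + f₂

/-- Let `f₀ + 1 ≤ f₂ ≤ 2 f₀ - 101 f₀^(3/4)`. The pair `(f₀, f₂)` is realized if and only if
`f₂ ≥ f₀ + 1 + 13 f₀^(1/4)` or, for some multiset `K` of positive integers with sum `f₂ - f₀ - 1`,
the number `f₀ + Σ k(k+3)/2` is a binomial coefficient `C(n,2)`. -/
theorem result (f₀ f₂ : ℕ) (h₁ : f₀ + 1 ≤ f₂)
    (h₂ : (f₂ : ℝ) + 101 * (f₀ : ℝ) ^ ((3 : ℝ) / 4) ≤ 2 * f₀) :
    IsFVector f₀ f₂ ↔ ((f₀ : ℝ) + 1 + 13 * (f₀ : ℝ) ^ ((1 : ℝ) / 4) ≤ f₂ ∨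
      ∃ (n : ℕ) (K : Multiset ℕ), (∀ k ∈ K, 0 < k) ∧ f₀ + 1 + K.sum = f₂ ∧
        f₀ + (K.map (fun k => k * (k + 3) / 2)).sum = n.choose 2) := by
  obtain ⟨e, rfl⟩ := Nat.exists_eq_add_of_le h₁
  set x : ℝ := (f₀ : ℝ) ^ ((1 : ℝ) / 4) with hx
  have hf0 : (0 : ℝ) ≤ f₀ := Nat.cast_nonneg _
  have hx0 : 0 ≤ x := Real.rpow_nonneg hf0 _
  have hx4 : x ^ 4 = f₀ := by
    rw [hx, ← Real.rpow_natCast, ← Real.rpow_mul hf0]
    norm_num
  have hx3 : (f₀ : ℝ) ^ ((3 : ℝ) / 4) = x ^ 3 := by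
    rw [hx, ← Real.rpow_natCast, ← Real.rpow_mul hf0]
    norm_num
  rw [hx3] at h₂
  push_cast at h₂
  have hy : (e : ℝ) + 1 + 101 * x ^ 3 ≤ x ^ 4 := by rw [hx4]; linarith
  have hx101 : 101 ≤ x := by
    by_contra hc
    push Not at hc
    have h3 : 0 ≤ x ^ 3 := by positivity
    have he : (0 : ℝ) ≤ e := Nat.cast_nonneg _
    nlinarith
  set m := ⌊x⌋₊ with hm
  have hm1 : (m : ℝ) ≤ x := Nat.floor_le hx0
  have hm2 : x < m + 1 := Nat.lt_floor_add_one x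
  have hm101 : 101 ≤ m := Nat.le_floor (by exact_mod_cast hx101)
  have a1 : m ^ 4 ≤ f₀ := by
    have : (m : ℝ) ^ 4 ≤ f₀ := by rw [← hx4]; gcongr
    exact_mod_cast this
  have a2 : f₀ < (m + 1) ^ 4 := by
    have : (f₀ : ℝ) < (m + 1) ^ 4 := by rw [← hx4]; gcongr
    exact_mod_cast this
  have a3 : e + 50 * m ^ 3 ≤ f₀ := by
    have h3 : (m : ℝ) ^ 3 ≤ x ^ 3 := by gcongr
    have h4 : 0 ≤ x ^ 3 := by positivity
    have : (e : ℝ) + 50 * m ^ 3 ≤ f₀ := by rw [← hx4]; linarith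
    exact_mod_cast this
  have key : 13 * m ≤ e → IsFVector f₀ (f₀ + 1 + e) := by
    intro h
    obtain ⟨A, b1, b2, b3, b4⟩ := Pool.Agent.R163.FV.bulk m f₀ e hm101 a1 a2 h a3
    refine ⟨A, b1, b2, ?_, ?_⟩
    · exact (Pool.TH330.CSR.f0_eq A).trans b3
    · have h5 := (Pool.TH330.CSR.f1_eq A).trans b4
      exact (congrArg (fun t : ℕ => t + 1) h5).trans (by ring)
  constructor
  · rintro ⟨A, _, _, b3, b4⟩
    right
    have h5 := (Pool.TH330.CSR.f0_eq A).symm.trans b3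
    have h6 := congrArg (fun t : ℕ => t + 1) (Pool.TH330.CSR.f1_eq A)
    have h7 : ∑ p ∈ Pool.TH330.CSR.Pts A, Pool.TH330.CSR.cnt A p + 1 = f₀ + (f₀ + 1 + e) :=
      h6.symm.trans b4
    obtain ⟨n, K, c1, c2, c3⟩ := Pool.TH330.CSR.forward A e (by rw [h5]; omega)
    exact ⟨n, K, c1, by rw [c2], by rw [← h5]; exact c3⟩
  · rintro (h | ⟨n, K, c1, c2, c3⟩)
    · push_cast at h
      apply key
      have : (13 : ℝ) * m ≤ e := by linarith
      exact_mod_cast this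
    by_cases h : 13 * m ≤ e
    · exact key h
    · have hc : (3 * e).choose 2 + 4 ≤ f₀ := by
        have h3 := Pool.Agent.R163.FV.two_choose (3 * e)
        have h4 : (3 * e) * (3 * e) ≤ (39 * m) * (39 * m) :=
          Nat.mul_le_mul (by omega) (by omega)
        have h5 : (39 * m) * (39 * m) = 1521 * m ^ 2 := by ring
        have h6 : 10201 * m ^ 2 ≤ m ^ 4 := by
          have : m ^ 4 = (m * m) * m ^ 2 := by ring
          rw [this]
          exact Nat.mul_le_mul_right _ (by nlinarith)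
        have h7 : 1 ≤ m ^ 2 := Nat.one_le_pow _ _ (by omega)
        omega
      have h8 := (Pool.TH330.CSR.fvec e f₀ hc).2 ⟨n, K, c1, by omega, c3⟩
      obtain ⟨A, b1, b2, b3, b4⟩ := h8
      refine ⟨A, b1, b2, b3, ?_⟩
      exact (congrArg (fun t : ℕ => t + 1) b4).trans (by ring)

end Pool.Agent.Results.MP_1cb47b_co.BulkFVectors
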